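import Pool.Agent.helper54.XP.SpecG

/-!
# Project xp:, module GMS: a small disc has multiplicity one
-/

set_option autoImplicit false

open Complex Metric Set Filter Topology MeasureTheory XP
open V3S (UF)

noncomputable section

namespace XPG

theorem GMS_lab {k : ℕ} [NeZero k] {i j : ℕ} (hi : 1 ≤ i) (hik : i ≤ k) (hj : 1 ≤ j) (hjk : j ≤ k)
    (hij : i ≠ j) : (i : ZMod k) ≠ (j : ZMod k) := by
  intro h
  rw [ZMod.natCast_eq_natCast_iff] at h
  rcases lt_or_gt_of_ne hij with h1 | h1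
  · have h2 := (Nat.modEq_iff_dvd' h1.le).1 h
    have h3 := Nat.le_of_dvd (by omega) h2
    omega
  · have h2 := (Nat.modEq_iff_dvd' h1.le).1 h.symm
    have h3 := Nat.le_of_dvd (by omega) h2
    omega

theorem GMS : GMS_stmt := by
  intro n C C' C'' D hH hL
  obtain ⟨A, -, hG⟩ := hH.good
  have hC1 := hL.C1
  have hC0 : 0 < C := by linarith
  filter_upwards [hL.img 1 one_pos 1 one_pos] with m hm z S hS hx
  have hR0 := (hG m).Rpos 0
  have hsg : (D m).sg ≠ 0 := by
    unfold Dat.sg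
    exact_mod_cast hR0.ne'
  have key : ∀ j ∈ S, ‖z - (D m).p (j : ZMod (D m).k)‖ * (D m).R 0 <
      (D m).R (j : ZMod (D m).k) / 4 := by
    intro j hj
    obtain ⟨x, hxb, hxz⟩ := hx j hj
    rw [mem_ball_zero_iff] at hxb
    have h8 : 1 / (8 * C) ≤ 1 := by
      rw [div_le_one (by positivity)]
      linarith
    have h1 := (hm j (hS j hj).2 x (by rw [mem_ball_zero_iff]; exact hxb.trans_le h8)).2.2.1
    rw [hxz] at h1
    have hRj := (hG m).Rpos (j : ZMod (D m).k)
    have h2 : ‖x‖ * (8 * C) < 1 := (lt_div_iff₀ (by positivity)).1 hxb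
    have h3 : 2 * C * (D m).R (j : ZMod (D m).k) * ‖x‖ < (D m).R (j : ZMod (D m).k) / 4 := by
      nlinarith
    linarith
  have hb : ∀ i l : ZMod (D m).k, ‖(D m).p i - (D m).p l‖ * (D m).R 0 = ‖(D m).b i - (D m).b l‖ := by
    intro i l
    have h1 : (D m).p i - (D m).p l = ((D m).b i - (D m).b l) / (D m).sg := by
      unfold Dat.p Dat.xx
      ring
    rw [h1, norm_div]
    have h2 : ‖(D m).sg‖ = (D m).R 0 := by
      unfold Dat.sg
      rw [Complex.norm_real, Real.norm_eq_abs, abs_of_pos hR0]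
    rw [h2]
    field_simp
  rw [Finset.card_le_one]
  intro i hi j hj
  by_contra hij
  have h1 := key i hi
  have h2 := key j hj
  have h3 : (i : ZMod (D m).k) ≠ (j : ZMod (D m).k) :=
    GMS_lab (hS i hi).1 (hS i hi).2 (hS j hj).1 (hS j hj).2 hij
  have h4 := (hG m).sepr _ _ h3
  have h5 := (hG m).sepr _ _ h3.symm
  rw [norm_sub_rev] at h5
  rw [← hb] at h4 h5
  have h6 : ‖(D m).p (i : ZMod (D m).k) - (D m).p (j : ZMod (D m).k)‖ ≤
      ‖z - (D m).p (i : ZMod (D m).k)‖ + ‖z - (D m).p (j : ZMod (D m).k)‖ := by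
    have h7 : (D m).p (i : ZMod (D m).k) - (D m).p (j : ZMod (D m).k) =
        (z - (D m).p (j : ZMod (D m).k)) - (z - (D m).p (i : ZMod (D m).k)) := by ring
    rw [h7]
    refine (norm_sub_le _ _).trans ?_
    linarith
  have h8 := mul_le_mul_of_nonneg_right h6 hR0.le
  have h9 := (hG m).Rpos (i : ZMod (D m).k)
  rw [add_mul] at h8
  linarith

end XPG
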