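import Pool.Agent.helper74.XP.SpecQ

/-!
# Project xp:, module XLF: line fields
-/

set_option autoImplicit false

open Complex Metric Set Filter Topology MeasureTheory MPS PPS Pool.Agent.helper98.ILF

noncomputable section

namespace XPP

theorem XLF_iter {f : Polynomial ℂ} {k : ℕ} {b : ZMod k → ℂ} (hs : ∀ i, f.eval (b i) = b (i + 1))
    (j : ℕ) : (fun w : ℂ => f.eval w)^[j] (b 0) = b (j : ZMod k) := by
  induction j with
  | zero => simp
  | succ j ih =>
    rw [Function.iterate_succ_apply', ih]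
    rw [hs]
    push_cast
    rfl

theorem XLF_cyc {f : Polynomial ℂ} (O : CY f) : Cyc f O.k (O.b 0) := by
  have := O.hk
  have hk0 : 0 < O.k := Nat.pos_of_ne_zero O.hk.out
  refine ⟨hk0, ?_⟩
  apply Nat.dvd_antisymm
  · apply Function.IsPeriodicPt.minimalPeriod_dvd
    change (fun w : ℂ => f.eval w)^[O.k] (O.b 0) = O.b 0
    rw [XLF_iter O.cyc.step]
    simp
  · have h1 : Function.IsPeriodicPt (fun w : ℂ => f.eval w)
        (Function.minimalPeriod (fun w : ℂ => f.eval w) (O.b 0)) (O.b 0) :=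
      Function.isPeriodicPt_minimalPeriod _ _
    have h2 : (fun w : ℂ => f.eval w)^[Function.minimalPeriod (fun w : ℂ => f.eval w) (O.b 0)]
      (O.b 0) = O.b 0 := h1
    rw [XLF_iter O.cyc.step] at h2
    have h3 := O.cyc.inj h2
    exact (ZMod.natCast_eq_zero_iff _ _).1 h3

theorem XLF_rho (hZCY : PPS.ZCY_stmt) {f : Polynomial ℂ} (O : CY f) :
    rho f O.b = mlt f O.k (O.b 0) := by
  have := O.hk
  obtain ⟨b', -, -, -, h4, h5, -⟩ := hZCY f O.k (O.b 0) (XLF_cyc O)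
  rw [← h5]
  congr 1
  funext i
  rw [← ZMod.natCast_zmod_val i, h4, XLF_iter O.cyc.step]

theorem XLF (hXLG : XLG_stmt) (hFLE : V3W.FLE_stmt) (hFLQ : V3W.FLQ_stmt) (hZCY : PPS.ZCY_stmt)
    (hPRB : PPS.PRB_stmt) : XLF_stmt := by
  intro n hn
  obtain ⟨ε, hε, h⟩ := hXLG n hn
  refine ⟨ε, hε, fun f hf hCV μ hμ hind => ?_⟩
  have hf2 : 2 ≤ f.natDegree := by omega
  obtain ⟨Cf, hCf0, hE⟩ := hFLE f hf2 hCV μ hμ hind
  obtain ⟨η, hη, hQ⟩ := hFLQ f hf2 hCV μ hμ hind
  have hfin : (CV f).Finite := (hPRB f (by omega)).2.2.2.2.1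
  obtain ⟨R₀, hR₀⟩ := hfin.isBounded.subset_ball (0 : ℂ)
  have hR : (0 : ℝ) < max R₀ 1 := lt_max_of_lt_right one_pos
  refine h f (max R₀ 1) (Cf (max R₀ 1)) (Real.log (1 + η)) hf ?_ ?_ ?_
  · intro v hv
    have := hR₀ hv
    rw [mem_ball_zero_iff] at this
    exact this.trans_le (le_max_left _ _)
  · exact Real.log_pos (by linarith)
  · intro O hO _
    have := O.hk
    refine ⟨?_, hE O.k O.b O.g hO O.cyc O.rep O.ex _ hR⟩
    have h1 := hQ O.k (O.b 0) (XLF_cyc O) (by rw [← XLF_rho hZCY O]; exact O.rep)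
    rw [← XLF_rho hZCY O] at h1
    exact Real.log_le_log (by linarith) h1

end XPP
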